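import Pool.Agent.Y489.GE.Stm2
import Pool.Agent.Y911.GE.SET

/-!
# Project GE: maps through the nerve (S_NRV)
-/

set_option autoImplicit false

open Set Topology unitInterval

noncomputable section

namespace Pool.Agent.Y891.GE

open Pool.Agent.Y489.GE hiding Poly
open Pool.Agent.Y911.GE

theorem cE_ge {Lam : ℝ} (h : 1 ≤ Lam) (k : ℕ) : 1 ≤ cE Lam k := by
  induction k with
  | zero => exact le_rfl
  | succ k ih =>
    show 1 ≤ Lam * cE Lam k + 2
    nlinarith

theorem dom_empty (X : Type) [TopologicalSpace X] [IsEmpty X] (n : ℕ) : Dom X n := by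
  have hP : IsEmpty ↥(Y489.GE.Poly (∅ : Set (Finset (Fin 0)))) := ⟨fun y => by
    obtain ⟨sg, hsg, _⟩ := y.2
    exact hsg⟩
  let ν : C(X, ↥(Y489.GE.Poly (∅ : Set (Finset (Fin 0))))) :=
    ⟨fun x => isEmptyElim x, continuous_iff_continuousAt.2 fun x => isEmptyElim x⟩
  let Φ : C(↥(Y489.GE.Poly (∅ : Set (Finset (Fin 0)))), X) :=
    ⟨fun x => isEmptyElim x, continuous_iff_continuousAt.2 fun x => isEmptyElim x⟩
  refine ⟨0, ∅, ν, Φ, fun sg hsg => absurd hsg (notMem_empty sg), ?_⟩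
  have : ContinuousMap.id X = Φ.comp ν := by
    ext x
    exact isEmptyElim x
  rw [this]

/-- the partition of unity -/
def pou {X A : Type} [Fintype A] (φ : A → X → ℝ) (z : X) : A → ℝ := fun a =>
  φ a z / ∑ a', φ a' z

section pou

variable {X A : Type} [Fintype A] {φ : A → X → ℝ} {O : A → Set X}

theorem pou_sum_pos (h0 : ∀ a z, 0 ≤ φ a z) (h1 : ∀ a z, 0 < φ a z ↔ z ∈ O a)
    (hc : ∀ z, ∃ a, z ∈ O a) (z : X) : 0 < ∑ a, φ a z := by
  obtain ⟨a, ha⟩ := hc z
  exact Finset.sum_pos' (fun a _ => h0 a z) ⟨a, Finset.mem_univ a, (h1 a z).2 ha⟩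

theorem pou_nonneg (h0 : ∀ a z, 0 ≤ φ a z) (h1 : ∀ a z, 0 < φ a z ↔ z ∈ O a)
    (hc : ∀ z, ∃ a, z ∈ O a) (z : X) (a : A) : 0 ≤ pou φ z a :=
  div_nonneg (h0 a z) (pou_sum_pos h0 h1 hc z).le

theorem pou_sum (h0 : ∀ a z, 0 ≤ φ a z) (h1 : ∀ a z, 0 < φ a z ↔ z ∈ O a)
    (hc : ∀ z, ∃ a, z ∈ O a) (z : X) : ∑ a, pou φ z a = 1 := by
  unfold pou
  rw [← Finset.sum_div]
  exact div_self (pou_sum_pos h0 h1 hc z).ne'

theorem pou_supp (h0 : ∀ a z, 0 ≤ φ a z) (h1 : ∀ a z, 0 < φ a z ↔ z ∈ O a) (z : X) (a : A)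
    (h : pou φ z a ≠ 0) : z ∈ O a := by
  rw [← h1]
  refine lt_of_le_of_ne (h0 a z) ?_
  intro h2
  apply h
  unfold pou
  rw [← h2, zero_div]

theorem pou_cont [TopologicalSpace X] (hφ : ∀ a, Continuous (φ a)) (h0 : ∀ a z, 0 ≤ φ a z)
    (h1 : ∀ a z, 0 < φ a z ↔ z ∈ O a)
    (hc : ∀ z, ∃ a, z ∈ O a) : Continuous (pou φ) := by
  refine continuous_pi fun a => ?_
  exact (hφ a).div (continuous_finsetSum _ fun a _ => hφ a)
    (fun z => (pou_sum_pos h0 h1 hc z).ne')

end pou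

theorem t_NRV (hE : S_EXT) : S_NRV := by
  intro X _ _ r m hm hr n s₀ Lam w hLam hLC hdim hw hcov hcs
  classical
  rcases isEmpty_or_nonempty X with hX | ⟨⟨z₀⟩⟩
  · exact dom_empty X n
  set cc := cE Lam (2 * n + 1) with hcc
  have hcc1 : 1 ≤ cc := cE_ge hLam _
  set ε : ℝ := min w (r / (2 * cc + 1)) with hεd
  have hε : 0 < ε := lt_min hw (by positivity)
  have hεw : ε ≤ w := min_le_left _ _
  have hεr : (2 * cc + 1) * ε ≤ r := by
    have : ε ≤ r / (2 * cc + 1) := min_le_right _ _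
    rw [le_div_iff₀ (by positivity)] at this
    linarith
  obtain ⟨N1, U, hUo, hUd, hUc, hUm⟩ := hdim ε hε
  obtain ⟨N2, V, hVo, hVd, hVc, hVm⟩ := hcov
  let O : Fin N1 ⊕ Fin N2 → Set X := Sum.elim U V
  let F : Set (Finset (Fin N1 ⊕ Fin N2)) := {S | ∃ z, ∀ v ∈ S, z ∈ O v}
  let F' : Set (Finset (Fin N2)) := {S | ∃ z, ∀ a ∈ S, z ∈ V a}
  let s : Finset (Fin N1 ⊕ Fin N2) → ℝ := fun S => if ∃ a, Sum.inr a ∈ S then 2 * w else 2 * ε
  let x : Fin N1 ⊕ Fin N2 → X := fun v => if h : (O v).Nonempty then h.some else z₀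
  have hx : ∀ v z, z ∈ O v → x v ∈ O v := by
    intro v z hz
    have h : (O v).Nonempty := ⟨z, hz⟩
    show (if h : (O v).Nonempty then h.some else z₀) ∈ O v
    rw [dif_pos h]
    exact h.some_mem
  have hF'card : ∀ sg ∈ F', sg.card ≤ n := by
    rintro sg ⟨z, hz⟩
    have h1 : sg ⊆ Finset.univ.filter (fun a => z ∈ V a) := fun a ha =>
      Finset.mem_filter.2 ⟨Finset.mem_univ a, hz a ha⟩
    have h2 := hVm z
    rw [Nat.card_eq_fintype_card, Fintype.card_subtype] at h2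
    exact (Finset.card_le_card h1).trans h2
  have hFcard : ∀ sg ∈ F, sg.card ≤ 2 * n + 1 := by
    rintro sg ⟨z, hz⟩
    have h1 : sg ⊆ (Finset.univ.filter (fun a => z ∈ U a)).disjSum
        (Finset.univ.filter (fun a => z ∈ V a)) := by
      intro v hv
      have := hz v hv
      rcases v with i | a
      · exact Finset.inl_mem_disjSum.2 (Finset.mem_filter.2 ⟨Finset.mem_univ i, this⟩)
      · exact Finset.inr_mem_disjSum.2 (Finset.mem_filter.2 ⟨Finset.mem_univ a, this⟩)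
    have h2 := hVm z
    have h3 := hUm z
    rw [Nat.card_eq_fintype_card, Fintype.card_subtype] at h2 h3
    have h4 := Finset.card_le_card h1
    rw [Finset.card_disjSum] at h4
    omega
  have hs2w : ∀ sg, s sg ≤ 2 * w := by
    intro sg
    show (if ∃ a, Sum.inr a ∈ sg then 2 * w else 2 * ε) ≤ 2 * w
    split_ifs
    · exact le_rfl
    · linarith
  have hs2e : ∀ sg, 2 * ε ≤ s sg := by
    intro sg
    show 2 * ε ≤ (if ∃ a, Sum.inr a ∈ sg then 2 * w else 2 * ε)
    split_ifs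
    · linarith
    · exact le_rfl
  have hdown : ∀ sg ∈ F, ∀ τ, τ ⊆ sg → τ ∈ F := by
    rintro sg ⟨z, hz⟩ τ hτ
    exact ⟨z, fun v hv => hz v (hτ hv)⟩
  have hmono : ∀ sg ∈ F, ∀ τ, τ ⊆ sg → s τ ≤ s sg := by
    intro sg _ τ hτ
    show (if ∃ a, Sum.inr a ∈ τ then 2 * w else 2 * ε) ≤
      (if ∃ a, Sum.inr a ∈ sg then 2 * w else 2 * ε)
    split_ifs with h1 h2
    · exact le_rfl
    · obtain ⟨a, ha⟩ := h1
      exact absurd ⟨a, hτ ha⟩ h2
    · linarith
    · exact le_rfl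
  have hdz : ∀ sg z, (∀ v ∈ sg, z ∈ O v) → ∀ v ∈ sg, dist (x v) z ≤ s sg / 2 := by
    intro sg z hz v hv
    have h1 := hz v hv
    have h2 := hx v z h1
    rcases v with i | a
    · have h3 := hUd i _ h2 z h1
      have h4 := hs2e sg
      linarith
    · have h3 := hVd a _ h2 z h1
      have h4 : s sg = 2 * w := if_pos ⟨a, hv⟩
      linarith
  obtain ⟨Φ, hΦ⟩ := hE X (2 * n + 1) s₀ Lam hLam hLC (Fin N1 ⊕ Fin N2) F x s hFcard hdown hmono
    (fun sg _ => lt_of_lt_of_le (by linarith) (hs2e sg))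
    (fun sg _ => by
      have := hs2w sg
      calc cE Lam (2 * n + 1) * s sg ≤ cE Lam (2 * n + 1) * (2 * w) := by
            apply mul_le_mul_of_nonneg_left this
            rw [← hcc]; linarith
        _ ≤ s₀ := hcs)
    (by
      rintro sg ⟨z, hz⟩ v hv v' hv'
      have h1 := hdz sg z hz v hv
      have h2 := hdz sg z hz v' hv'
      calc dist (x v) (x v') ≤ dist (x v) z + dist (x v') z := dist_triangle_right _ _ _
        _ ≤ s sg := by linarith)
  -- bump functions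
  choose φ hφc hφ0 hφU using fun i => bump (U i) (hUo i)
  choose χ hχc hχ0 hχV using fun a => bump (V a) (hVo a)
  have hUc' := pou_cont hφc hφ0 hφU hUc
  have hVc' := pou_cont hχc hχ0 hχV hVc
  let νU : X → (Fin N1 ⊕ Fin N2 → ℝ) := fun z => Sum.elim (pou φ z) (fun _ => 0)
  let νV : X → (Fin N1 ⊕ Fin N2 → ℝ) := fun z => Sum.elim (fun _ => 0) (pou χ z)
  have cU : Continuous νU := by
    refine continuous_pi fun v => ?_
    rcases v with i | a
    · exact (continuous_apply i).comp hUc'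
    · exact continuous_const
  have cV : Continuous νV := by
    refine continuous_pi fun v => ?_
    rcases v with i | a
    · exact continuous_const
    · exact (continuous_apply a).comp hVc'
  have hUn : ∀ z v, 0 ≤ νU z v := by
    intro z v
    rcases v with i | a
    · exact pou_nonneg hφ0 hφU hUc z i
    · exact le_rfl
  have hVn : ∀ z v, 0 ≤ νV z v := by
    intro z v
    rcases v with i | a
    · exact le_rfl
    · exact pou_nonneg hχ0 hχV hVc z a
  have hUs : ∀ z, ∑ v, νU z v = 1 := by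
    intro z
    rw [Fintype.sum_sum_type]
    simp only [νU, Sum.elim_inl, Sum.elim_inr, Finset.sum_const_zero, add_zero]
    exact pou_sum hφ0 hφU hUc z
  have hVs : ∀ z, ∑ v, νV z v = 1 := by
    intro z
    rw [Fintype.sum_sum_type]
    simp only [νV, Sum.elim_inl, Sum.elim_inr, Finset.sum_const_zero, zero_add]
    exact pou_sum hχ0 hχV hVc z
  have hUsupp : ∀ z v, νU z v ≠ 0 → z ∈ O v ∧ ∃ i, v = Sum.inl i := by
    intro z v hv
    rcases v with i | a
    · exact ⟨pou_supp hφ0 hφU z i hv, i, rfl⟩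
    · exact absurd rfl hv
  have hVsupp : ∀ z v, νV z v ≠ 0 → z ∈ O v := by
    intro z v hv
    rcases v with i | a
    · exact absurd rfl hv
    · exact pou_supp hχ0 hχV z a hv
  -- the segment
  have hseg : ∀ (z : X) (t : I), ((1 - (t : ℝ)) • νU z + (t : ℝ) • νV z) ∈ Y489.GE.Poly F := by
    intro z t
    have ht0 := t.2.1
    have ht1 := t.2.2
    refine ⟨Finset.univ.filter (fun v => z ∈ O v), ⟨z, fun v hv => (Finset.mem_filter.1 hv).2⟩,
      ?_, ?_, ?_⟩
    · intro v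
      have h1 := hUn z v
      have h2 := hVn z v
      have h3 : 0 ≤ 1 - (t : ℝ) := by linarith
      simp only [Pi.add_apply, Pi.smul_apply, smul_eq_mul]
      positivity
    · simp only [Pi.add_apply, Pi.smul_apply, smul_eq_mul]
      rw [Finset.sum_add_distrib, ← Finset.mul_sum, ← Finset.mul_sum, hUs, hVs]
      ring
    · intro v hv
      rw [Finset.mem_filter]
      refine ⟨Finset.mem_univ v, ?_⟩
      by_contra hz
      apply hv
      have h1 : νU z v = 0 := by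
        by_contra h
        exact hz (hUsupp z v h).1
      have h2 : νV z v = 0 := by
        by_contra h
        exact hz (hVsupp z v h)
      simp only [Pi.add_apply, Pi.smul_apply, smul_eq_mul, h1, h2]
      ring
  have hUP : ∀ z, νU z ∈ Y489.GE.Poly F := by
    intro z
    have := hseg z 0
    simpa using this
  have hVP : ∀ z, νV z ∈ Y489.GE.Poly F := by
    intro z
    have := hseg z 1
    simpa using this
  let νU' : C(X, ↥(Y489.GE.Poly F)) := ⟨fun z => ⟨νU z, hUP z⟩, cU.subtype_mk _⟩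
  let νV' : C(X, ↥(Y489.GE.Poly F)) := ⟨fun z => ⟨νV z, hVP z⟩, cV.subtype_mk _⟩
  -- first homotopy
  have hclose : ∀ z, dist z (Φ (νU' z)) ≤ r := by
    intro z
    obtain ⟨i, hi⟩ := hUc z
    let S : Finset (Fin N1 ⊕ Fin N2) := Finset.univ.filter (fun v => z ∈ O v ∧ ∃ i, v = Sum.inl i)
    have hSF : S ∈ F := ⟨z, fun v hv => (Finset.mem_filter.1 hv).2.1⟩
    have hsS : s S = 2 * ε := by
      refine if_neg ?_
      rintro ⟨a, ha⟩
      obtain ⟨j, hj⟩ := (Finset.mem_filter.1 ha).2.2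
      exact absurd hj (by simp)
    have hfac : (νU' z).1 ∈ Fac S := ⟨hUn z, hUs z, fun v hv =>
      Finset.mem_filter.2 ⟨Finset.mem_univ v, hUsupp z v hv⟩⟩
    have hiS : Sum.inl i ∈ S := Finset.mem_filter.2 ⟨Finset.mem_univ _, hi, i, rfl⟩
    have h1 := hΦ S hSF (νU' z) hfac (Sum.inl i) hiS
    have h2 : dist (x (Sum.inl i)) z ≤ ε := hUd i _ (hx (Sum.inl i) z hi) z hi
    rw [hsS, ← hcc] at h1
    calc dist z (Φ (νU' z)) ≤ dist z (x (Sum.inl i)) + dist (x (Sum.inl i)) (Φ (νU' z)) :=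
          dist_triangle _ _ _
      _ ≤ ε + cc * (2 * ε) := by rw [dist_comm z]; linarith
      _ = (2 * cc + 1) * ε := by ring
      _ ≤ r := hεr
  have hom1 : ContinuousMap.Homotopic (ContinuousMap.id X) (Φ.comp νU') := by
    refine ⟨⟨⟨fun p => m p.2 (Φ (νU' p.2)) p.1, ?_⟩, ?_, ?_⟩⟩
    · have h1 : Continuous fun p : I × X => ((p.2, Φ (νU' p.2), (p.1 : ℝ)) : X × X × ℝ) := by
        fun_prop
      exact hm.cont.comp_continuous h1 fun p => ⟨hclose p.2, p.1.2⟩
    · intro z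
      exact hm.zero _ _ (hclose z)
    · intro z
      exact hm.one _ _ (hclose z)
  -- second homotopy
  have hom2 : ContinuousMap.Homotopic (Φ.comp νU') (Φ.comp νV') := by
    refine ⟨⟨⟨fun p => Φ ⟨_, hseg p.2 p.1⟩, ?_⟩, ?_, ?_⟩⟩
    · refine Φ.continuous.comp (Continuous.subtype_mk ?_ _)
      fun_prop
    · intro z
      show Φ _ = Φ _
      congr 1
      apply Subtype.ext
      show ((1 - ((0 : I) : ℝ)) • νU z + ((0 : I) : ℝ) • νV z) = νU z
      simp
    · intro z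
      show Φ _ = Φ _
      congr 1
      apply Subtype.ext
      show ((1 - ((1 : I) : ℝ)) • νU z + ((1 : I) : ℝ) • νV z) = νV z
      simp
  -- the factorisation
  have hP' : ∀ z, pou χ z ∈ Y489.GE.Poly F' := fun z =>
    ⟨Finset.univ.filter (fun a => z ∈ V a), ⟨z, fun a ha => (Finset.mem_filter.1 ha).2⟩,
      pou_nonneg hχ0 hχV hVc z, pou_sum hχ0 hχV hVc z, fun a ha =>
        Finset.mem_filter.2 ⟨Finset.mem_univ a, pou_supp hχ0 hχV z a ha⟩⟩
  have hE' : ∀ y : ↥(Y489.GE.Poly F'), (Sum.elim (fun _ => 0) y.1 : Fin N1 ⊕ Fin N2 → ℝ) ∈ Y489.GE.Poly F := by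
    rintro ⟨y, sg, ⟨z, hz⟩, h1, h2, h3⟩
    refine ⟨sg.map Function.Embedding.inr, ⟨z, ?_⟩, ?_, ?_, ?_⟩
    · intro v hv
      obtain ⟨a, ha, rfl⟩ := Finset.mem_map.1 hv
      exact hz a ha
    · intro v
      rcases v with i | a
      · exact le_rfl
      · exact h1 a
    · rw [Fintype.sum_sum_type]
      simp only [Sum.elim_inl, Sum.elim_inr, Finset.sum_const_zero, zero_add]
      exact h2
    · intro v hv
      rcases v with i | a
      · exact absurd rfl hv
      · exact Finset.mem_map.2 ⟨a, h3 a hv, rfl⟩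
  let ν' : C(X, ↥(Y489.GE.Poly F')) := ⟨fun z => ⟨pou χ z, hP' z⟩, hVc'.subtype_mk _⟩
  let E : C(↥(Y489.GE.Poly F'), ↥(Y489.GE.Poly F)) := ⟨fun y => ⟨_, hE' y⟩, by
    refine Continuous.subtype_mk ?_ _
    refine continuous_pi fun v => ?_
    rcases v with i | a
    · exact continuous_const
    · exact (continuous_apply a).comp continuous_subtype_val⟩
  refine ⟨N2, F', ν', Φ.comp E, hF'card, ?_⟩
  have heq : (Φ.comp E).comp ν' = Φ.comp νV' := by
    ext z
    rfl
  rw [heq]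
  exact hom1.trans hom2

end Pool.Agent.Y891.GE
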