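import Pool.Agent.Y489.GE.Stm2
import Pool.Agent.Y911.GE.SET

/-!
# Project GE: weights and families of paths from a fine cover (S_SETL), after helper911
-/

set_option autoImplicit false

open Set Topology unitInterval

noncomputable section

namespace Pool.Agent.Y891.GE

open Pool.Agent.Y489.GE Pool.Agent.Y911.GE

theorem t_SETL : S_SETL := by
  intro X K _ _ _ q hq r m hm p D hD ε hε hεr f hf hpath A hA
  classical
  have hu := CompactSpace.uniformContinuous_of_continuous hf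
  rw [Metric.uniformContinuous_iff] at hu
  obtain ⟨δ, hδ, hfδ⟩ := hu ε hε
  obtain ⟨n, U, hUo, hUd, hUc, hUq⟩ := hq (δ / 2) (by positivity)
  have hfU : ∀ i, ∀ x ∈ U i, ∀ y ∈ U i, dist (f x) (f y) ≤ ε := by
    intro i x hx y hy
    exact (hfδ (lt_of_le_of_lt (hUd i x hx y hy) (by linarith))).le
  have hbump : ∀ i, ∃ φ : K → ℝ, Continuous φ ∧ (∀ k, 0 ≤ φ k) ∧ ∀ k, 0 < φ k ↔ k ∈ U i :=
    fun i => bump (U i) (hUo i)
  choose φ hφc hφ0 hφU using hbump
  have hfam : ∀ i, ∃ R : K → ℝ → X, ContinuousOn R (U i) ∧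
      (∀ k ∈ U i, R k ∈ Pa p (D + ε) ∧ R k (D + ε) = f k) ∧
      ∀ k ∈ A, k ∈ U i → R k = fun _ => p := by
    intro i
    by_cases h : ∃ k₁, k₁ ∈ U i ∧ k₁ ∈ A
    · obtain ⟨k₁, h1, h2⟩ := h
      obtain ⟨R, R1, R2, R3⟩ := fam r m hm p D ε hD hε hεr f hf (U i) p (fun _ => p)
        ⟨fun s t => by rw [dist_self]; exact abs_nonneg _, fun _ _ => rfl, fun _ _ => rfl⟩ rfl
        (fun k hk => by rw [← hA k₁ h2]; exact hfU i k₁ h1 k hk)
      exact ⟨R, R1, R2, fun k hk _ => R3 rfl k (hA k hk)⟩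
    · by_cases hne : ∃ k₁, k₁ ∈ U i
      · obtain ⟨k₁, h1⟩ := hne
        obtain ⟨c, hc, hcD⟩ := hpath k₁
        obtain ⟨R, R1, R2, R3⟩ := fam r m hm p D ε hD hε hεr f hf (U i) (f k₁) c hc hcD
          (fun k hk => hfU i k₁ h1 k hk)
        exact ⟨R, R1, R2, fun k hk hk' => (h ⟨k, hk', hk⟩).elim⟩
      · refine ⟨fun _ _ => p, continuousOn_const, fun k hk => (hne ⟨k, hk⟩).elim,
          fun _ _ _ => rfl⟩
  have hS : ∀ S : Finset (Fin n), ∃ R : K → ℝ → X, S.Nonempty →
      (ContinuousOn R {k | 0 < wt φ S k} ∧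
      (∀ k, 0 < wt φ S k → R k ∈ Pa p (D + ε) ∧ R k (D + ε) = f k) ∧
      ∀ k ∈ A, 0 < wt φ S k → R k = fun _ => p) := by
    intro S
    by_cases hne : S.Nonempty
    · obtain ⟨i, hi⟩ := hne
      obtain ⟨R, R1, R2, R3⟩ := hfam i
      have hin : ∀ k, 0 < wt φ S k → k ∈ U i := by
        intro k hk
        rw [wt_pos φ hφ0] at hk
        exact (hφU i k).1 (hk i hi).1
      exact ⟨R, fun _ => ⟨R1.mono fun k hk => hin k hk, fun k hk => R2 k (hin k hk),
        fun k hk hk' => R3 k hk (hin k hk')⟩⟩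
    · exact ⟨fun _ _ => p, fun h => (hne h).elim⟩
  choose R hR using hS
  have hcardne : ∀ (S : Finset (Fin n)) (j : ℕ), S.card = j + 1 → S.Nonempty := by
    intro S j h
    rw [← Finset.card_pos]
    omega
  -- the weights and the families
  let t : ℕ → K → ℝ := fun j k => ∑ S ∈ Finset.univ.filter
    (fun S : Finset (Fin n) => S.card = j + 1), wt φ S k
  let ρ : ℕ → K → ℝ → X := fun j k =>
    if h : ∃ S : Finset (Fin n), S.card = j + 1 ∧ 0 < wt φ S k then R h.choose k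
    else fun _ => p
  have htpos : ∀ j k, 0 < t j k ↔ ∃ S : Finset (Fin n), S.card = j + 1 ∧ 0 < wt φ S k := by
    intro j k
    constructor
    · intro h
      by_contra hn
      push Not at hn
      have : t j k ≤ 0 := Finset.sum_nonpos fun S hS => hn S (Finset.mem_filter.1 hS).2
      linarith
    · rintro ⟨S, h1, h2⟩
      exact Finset.sum_pos' (fun T _ => wt_nonneg φ hφ0 T k)
        ⟨S, Finset.mem_filter.2 ⟨Finset.mem_univ _, h1⟩, h2⟩
  have hρ : ∀ j k (S : Finset (Fin n)), S.card = j + 1 → 0 < wt φ S k → ρ j k = R S k := by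
    intro j k S h1 h2
    have hex : ∃ S : Finset (Fin n), S.card = j + 1 ∧ 0 < wt φ S k := ⟨S, h1, h2⟩
    show (if h : ∃ S : Finset (Fin n), S.card = j + 1 ∧ 0 < wt φ S k then R h.choose k
      else fun _ => p) = R S k
    rw [dif_pos hex]
    have := hex.choose_spec
    rw [wt_uniq φ hφ0 hex.choose S (this.1.trans h1.symm) k this.2 h2]
  refine ⟨t, ρ, ?_, ?_, ?_, ?_, ?_, ?_⟩
  · intro j
    exact continuous_finsetSum _ fun S _ => wt_cont φ hφc S
  · intro j k
    exact Finset.sum_nonneg fun S _ => wt_nonneg φ hφ0 S k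
  · intro k
    have hcard := hUq k
    rw [Nat.card_eq_fintype_card, Fintype.card_subtype] at hcard
    obtain ⟨i, hi⟩ := hUc k
    have hpos : 0 < (Finset.univ.filter fun i : Fin n => k ∈ U i).card :=
      Finset.card_pos.2 ⟨i, Finset.mem_filter.2 ⟨Finset.mem_univ _, hi⟩⟩
    refine ⟨(Finset.univ.filter fun i : Fin n => k ∈ U i).card - 1, by omega, ?_⟩
    rw [htpos]
    refine ⟨Finset.univ.filter fun i : Fin n => k ∈ U i, by omega, ?_⟩
    rw [wt_pos φ hφ0]
    intro i hi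
    have hi' := (Finset.mem_filter.1 hi).2
    refine ⟨(hφU i k).2 hi', ?_⟩
    intro j hj
    have hj' : ¬ k ∈ U j := fun h => hj (Finset.mem_filter.2 ⟨Finset.mem_univ _, h⟩)
    have h1 : ¬ 0 < φ j k := fun h => hj' ((hφU j k).1 h)
    have h2 := (hφU i k).2 hi'
    linarith
  · intro j k hk
    obtain ⟨S, h1, h2⟩ := (htpos j k).1 hk
    have hopen : IsOpen {k | 0 < wt φ S k} := isOpen_lt continuous_const (wt_cont φ hφc S)
    have hRc := ((hR S (hcardne S j h1)).1 k h2).continuousAt (hopen.mem_nhds h2)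
    apply ContinuousAt.continuousWithinAt
    refine hRc.congr ?_
    filter_upwards [hopen.mem_nhds h2] with k' hk'
    exact (hρ j k' S h1 hk').symm
  · intro j k hk
    obtain ⟨S, h1, h2⟩ := (htpos j k).1 hk
    rw [hρ j k S h1 h2]
    exact (hR S (hcardne S j h1)).2.1 k h2
  · intro j k hkA hk
    obtain ⟨S, h1, h2⟩ := (htpos j k).1 hk
    rw [hρ j k S h1 h2]
    exact (hR S (hcardne S j h1)).2.2 k hkA h2

end Pool.Agent.Y891.GE
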